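import Pool.Agent.H82.RO.Inst
import Pool.Agent.W307.RT.Tors

/-!
# Bounded average rank in all three orderings, for the torsion groups `Z/2 × Z/4` and `Z/2 × Z/6`

All elliptic curves over `ℚ` whose group of rational points contains `Z/2 × Z/4`, respectively
`Z/2 × Z/6`, ordered by conductor, by minimal discriminant, or by height, or by any invariant which
is comparable to one of these: the average of `(5/4) ^ rank` is bounded. So the average rank is
bounded, and the proportion of the curves of rank at least `r` is at most `C (4/5) ^ r`, in each of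
the three orderings.
-/

set_option autoImplicit false

namespace Pool.Agent.Results.MP_6073f3_nt.BoundedRanksThreeOrderings

open Finset

/-- the elliptic curve `y² = x³ + A x + B` over `ℚ`, where `c = (A, B)` -/
def E (c : ℤ × ℤ) : WeierstrassCurve ℚ := ⟨0, 0, 0, (c.1 : ℚ), (c.2 : ℚ)⟩

/-- the rank of the group of the rational points -/
noncomputable def rank (c : ℤ × ℤ) : ℕ := Module.finrank ℤ (E c).toAffine.Point

/-- The pairs `(A, B)` of integers with `4 A³ + 27 B² ≠ 0` and no prime `p` with `p⁴ ∣ A` and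
`p⁶ ∣ B` (each elliptic curve over `ℚ` is isomorphic to exactly one such curve) such that
`Z/2 × Z/m` embeds in the group of the rational points. -/
def Fam (m : ℕ) : Set (ℤ × ℤ) :=
  {c | 4 * c.1 ^ 3 + 27 * c.2 ^ 2 ≠ 0 ∧
    (∀ p : ℕ, p.Prime → ¬ ((p : ℤ) ^ 4 ∣ c.1 ∧ (p : ℤ) ^ 6 ∣ c.2)) ∧
    ∃ f : ZMod 2 × ZMod m →+ (E c).toAffine.Point, Function.Injective f}

/-- `|4 A³ + 27 B²|`; for the minimal pairs the minimal discriminant satisfies
`16 disc / 6 ^ 12 ≤ |Δ| ≤ 16 disc` -/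
def disc (c : ℤ × ℤ) : ℕ := (4 * c.1 ^ 3 + 27 * c.2 ^ 2).natAbs

/-- the prime-to-6 part `N₆` of the conductor `N` (for the minimal pairs): the product over the
primes `p ≥ 5` dividing `4 A³ + 27 B²` of `p ^ 2` (if `p ∣ A`) or `p`; `N₆ ≤ N ≤ 2 ^ 8 3 ^ 5 N₆` -/
def cond6 (c : ℤ × ℤ) : ℕ :=
  ∏ p ∈ (disc c).primeFactors.filter (fun p => 5 ≤ p), if (p : ℤ) ∣ c.1 then p ^ 2 else p

/-- the height -/
def height (c : ℤ × ℤ) : ℕ := max (4 * c.1.natAbs ^ 3) (27 * c.2.natAbs ^ 2)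

/-- `I` is comparable to `J` on the family: `k J ≤ I ≤ K J` with positive constants -/
def Comparable (m : ℕ) (J : ℤ × ℤ → ℕ) (I : ℤ × ℤ → ℝ) : Prop :=
  ∃ k K : ℝ, 0 < k ∧ ∀ c ∈ Fam m, k * (J c : ℝ) ≤ I c ∧ I c ≤ K * (J c : ℝ)

/-- The conclusion for the family and the invariant `I`, with constants: the number of the curves
with `I ≤ X` is finite, it has the order of magnitude `X ^ e`; the average of `(5/4) ^ rank` over
these curves is at most `C`, and so is the average rank, and the proportion of the curves with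
`rank ≥ r` is at most `C (4/5) ^ r` for all `r`. -/
def Bounded (m : ℕ) (I : ℤ × ℤ → ℝ) (e : ℝ) : Prop :=
  ∃ c C X₀ : ℝ, 0 < c ∧ ∀ X : ℝ, ∃ F : Finset (ℤ × ℤ), (F : Set (ℤ × ℤ)) = {x | x ∈ Fam m ∧ I x ≤ X} ∧
    (X₀ ≤ X → c * X ^ e ≤ (F.card : ℝ) ∧ (F.card : ℝ) ≤ C * X ^ e) ∧
    ∑ x ∈ F, (5 / 4 : ℝ) ^ rank x ≤ C * F.card ∧
    ∑ x ∈ F, (rank x : ℝ) ≤ C * F.card ∧
    ∀ r : ℕ, ((F.filter (fun x => r ≤ rank x)).card : ℝ) ≤ C * (4 / 5) ^ r * F.card

lemma Fam_eq (m : ℕ) : Fam m = Pool.Agent.H82.RO.Fam m := by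
  ext c
  have h : Pool.Agent.W307.RT.HasT m (Pool.Agent.W307.RT.Sh c.1 c.2) ↔
      ∃ f : ZMod 2 × ZMod m →+ (E c).toAffine.Point, Function.Injective f :=
    Pool.Agent.W307.RT.tors_iff
  unfold Fam Pool.Agent.H82.RO.Fam Pool.Agent.H82.RO.Mn
  rw [Set.mem_ofPred_eq, Set.mem_ofPred_eq, h]

lemma rank_le_pow (r : ℕ) : (r : ℝ) ≤ 4 * (5 / 4 : ℝ) ^ r := by
  have h := one_add_mul_le_pow (a := (1 / 4 : ℝ)) (by norm_num) r
  have e : (1 + 1 / 4 : ℝ) = 5 / 4 := by norm_num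
  rw [e] at h
  linarith

theorem bounded_of {m : ℕ} {I : ℤ × ℤ → ℝ} {e : ℝ} (h : Pool.Agent.H82.RO.Concl m I e) :
    Bounded m I e := by
  classical
  obtain ⟨⟨c, C, X₀, hc, hX1, h1⟩, C', hC', h2⟩ := h
  refine ⟨c, max C (4 * C'), X₀, hc, fun X => ?_⟩
  obtain ⟨F, hF, hF2⟩ := h2 X
  rw [← Fam_eq] at hF
  have hF2' : ∑ x ∈ F, (5 / 4 : ℝ) ^ rank x ≤ C' * F.card := hF2
  have hC4 : C' ≤ max C (4 * C') := le_max_of_le_right (by linarith)
  have hF0 : (0 : ℝ) ≤ F.card := Nat.cast_nonneg _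
  refine ⟨F, hF, fun hX => ?_, ?_, ?_, fun r => ?_⟩
  · obtain ⟨a1, a2⟩ := h1 X hX
    rw [← Fam_eq] at a1 a2
    have e1 : ({c | c ∈ Fam m ∧ I c ≤ X}.ncard : ℝ) = F.card := by
      rw [← hF, Set.ncard_coe_finset]
    rw [e1] at a1 a2
    exact ⟨a1, a2.trans (mul_le_mul_of_nonneg_right (le_max_left _ _)
      (Real.rpow_nonneg (by linarith) _))⟩
  · exact hF2'.trans (mul_le_mul_of_nonneg_right hC4 hF0)
  · have h3 : ∑ x ∈ F, (rank x : ℝ) ≤ 4 * ∑ x ∈ F, (5 / 4 : ℝ) ^ rank x := by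
      rw [mul_sum]
      exact sum_le_sum fun x _ => rank_le_pow _
    have h4 : 4 * ∑ x ∈ F, (5 / 4 : ℝ) ^ rank x ≤ (4 * C') * F.card := by linarith
    exact (h3.trans h4).trans (mul_le_mul_of_nonneg_right (le_max_right _ _) hF0)
  · have h3 : ((F.filter (fun x => r ≤ rank x)).card : ℝ) * (5 / 4 : ℝ) ^ r ≤
        ∑ x ∈ F, (5 / 4 : ℝ) ^ rank x := by
      calc ((F.filter (fun x => r ≤ rank x)).card : ℝ) * (5 / 4 : ℝ) ^ r =
          ∑ _x ∈ F.filter (fun x => r ≤ rank x), (5 / 4 : ℝ) ^ r := by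
            rw [sum_const, nsmul_eq_mul]
        _ ≤ ∑ x ∈ F.filter (fun x => r ≤ rank x), (5 / 4 : ℝ) ^ rank x := by
            refine sum_le_sum fun x hx => ?_
            exact pow_le_pow_right₀ (by norm_num) (mem_filter.1 hx).2
        _ ≤ _ := sum_le_sum_of_subset_of_nonneg (filter_subset _ _) fun _ _ _ => by positivity
    have h4 : (5 / 4 : ℝ) ^ r * (4 / 5) ^ r = 1 := by
      rw [← mul_pow]
      norm_num
    have h5 : (0 : ℝ) < (4 / 5) ^ r := by positivity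
    calc ((F.filter (fun x => r ≤ rank x)).card : ℝ) =
        ((F.filter (fun x => r ≤ rank x)).card : ℝ) * (5 / 4 : ℝ) ^ r * (4 / 5) ^ r := by
          rw [mul_assoc, h4, mul_one]
      _ ≤ (C' * F.card) * (4 / 5) ^ r := mul_le_mul_of_nonneg_right (h3.trans hF2') h5.le
      _ ≤ (max C (4 * C') * F.card) * (4 / 5) ^ r :=
          mul_le_mul_of_nonneg_right (mul_le_mul_of_nonneg_right hC4 hF0) h5.le
      _ = _ := by ring

lemma comp {m : ℕ} {J : ℤ × ℤ → ℕ} {I : ℤ × ℤ → ℝ} (h : Comparable m J I) :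
    Pool.Agent.H82.RO.Comparable m (fun c => (J c : ℝ)) I := by
  unfold Comparable at h
  rw [Fam_eq] at h
  exact h

/-- **Theorem.** Let `I` be any invariant which is comparable to the conductor, to the minimal
discriminant or to the height. For the elliptic curves over `ℚ` whose torsion group contains
`Z/2 × Z/4`, or `Z/2 × Z/6`, ordered by `I`, the average of `(5/4) ^ rank` is bounded; the average
rank is bounded, and the proportion of the curves of rank at least `r` is at most `C (4/5) ^ r`. The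
numbers of the curves with `I ≤ X` are of the orders `X ^ (1/2)` and `X ^ (1/3)` by conductor,
`X ^ (1/6)` and `X ^ (1/12)` by discriminant and by height. -/
theorem result :
    (∀ I : ℤ × ℤ → ℝ, Comparable 4 cond6 I → Bounded 4 I (1 / 2)) ∧
    (∀ I : ℤ × ℤ → ℝ, Comparable 6 cond6 I → Bounded 6 I (1 / 3)) ∧
    (∀ I : ℤ × ℤ → ℝ, Comparable 4 disc I ∨ Comparable 4 height I → Bounded 4 I (1 / 6)) ∧
    (∀ I : ℤ × ℤ → ℝ, Comparable 6 disc I ∨ Comparable 6 height I → Bounded 6 I (1 / 12)) := by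
  refine ⟨fun I hI => ?_, fun I hI => ?_, fun I hI => ?_, fun I hI => ?_⟩
  · have h := Pool.Agent.H82.RO.main_cond Pool.Agent.H82.RO.data4 I (comp hI)
    have e : (2 / ((1 + 3 : ℕ) : ℝ)) = 1 / 2 := by norm_num
    rw [e] at h
    exact bounded_of h
  · have h := Pool.Agent.H82.RO.main_cond Pool.Agent.H82.RO.data6 I (comp hI)
    have e : (2 / ((3 + 3 : ℕ) : ℝ)) = 1 / 3 := by norm_num
    rw [e] at h
    exact bounded_of h
  · have h := Pool.Agent.H82.RO.main_disc Pool.Agent.H82.RO.data4 I (hI.imp comp comp)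
    have e1 : ∑ j, Pool.Agent.H82.RO.μ4 j = 6 := by decide
    rw [e1] at h
    have e : (2 / ((2 * 6 : ℕ) : ℝ)) = 1 / 6 := by norm_num
    rw [e] at h
    exact bounded_of h
  · have h := Pool.Agent.H82.RO.main_disc Pool.Agent.H82.RO.data6 I (hI.imp comp comp)
    have e1 : ∑ j, Pool.Agent.H82.RO.μ6 j = 12 := by decide
    rw [e1] at h
    have e : (2 / ((2 * 12 : ℕ) : ℝ)) = 1 / 12 := by norm_num
    rw [e] at h
    exact bounded_of h

end Pool.Agent.Results.MP_6073f3_nt.BoundedRanksThreeOrderings
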