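import Pool.Agent.H82.FT.Top
import Pool.Agent.W307.RT.Tors

/-!
# Bounded average rank in all three orderings, for all curves with full rational two-torsion

All elliptic curves over `ℚ` whose points of order two are all rational (with all their quadratic
twists), ordered by conductor, by minimal discriminant, or by height, or by any invariant which is
comparable to one of these: the average of `(5/4) ^ rank` is bounded. So the average rank is
bounded, and the proportion of the curves of rank at least `r` is at most `C (4/5) ^ r`, in each of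
the three orderings.
-/

set_option autoImplicit false

namespace Pool.Agent.Results.MP_6073f3_nt.FullTwoTorsionThreeOrderings

open Finset

/-- the elliptic curve `y² = x³ + A x + B` over `ℚ`, where `c = (A, B)` -/
def E (c : ℤ × ℤ) : WeierstrassCurve ℚ := ⟨0, 0, 0, (c.1 : ℚ), (c.2 : ℚ)⟩

/-- the rank of the group of the rational points -/
noncomputable def rank (c : ℤ × ℤ) : ℕ := Module.finrank ℤ (E c).toAffine.Point

/-- The pairs `(A, B)` of integers with `4 A³ + 27 B² ≠ 0` and no prime `p` with `p⁴ ∣ A` and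
`p⁶ ∣ B` (each elliptic curve over `ℚ` is isomorphic to exactly one such curve) such that
`Z/2 × Z/2` embeds in the group of the rational points, that is `x³ + A x + B` has three rational
roots. -/
def Fam : Set (ℤ × ℤ) :=
  {c | 4 * c.1 ^ 3 + 27 * c.2 ^ 2 ≠ 0 ∧
    (∀ p : ℕ, p.Prime → ¬ ((p : ℤ) ^ 4 ∣ c.1 ∧ (p : ℤ) ^ 6 ∣ c.2)) ∧
    ∃ f : ZMod 2 × ZMod 2 →+ (E c).toAffine.Point, Function.Injective f}

/-- `|4 A³ + 27 B²|`; for the minimal pairs the minimal discriminant satisfies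
`16 disc / 6 ^ 12 ≤ |Δ| ≤ 16 disc` -/
def disc (c : ℤ × ℤ) : ℕ := (4 * c.1 ^ 3 + 27 * c.2 ^ 2).natAbs

/-- the prime-to-6 part `N₆` of the conductor `N` (for the minimal pairs): the product over the
primes `p ≥ 5` dividing `4 A³ + 27 B²` of `p ^ 2` (if `p ∣ A`) or `p`; `N₆ ≤ N ≤ 2 ^ 8 3 ^ 5 N₆` -/
def cond6 (c : ℤ × ℤ) : ℕ :=
  ∏ p ∈ (disc c).primeFactors.filter (fun p => 5 ≤ p), if (p : ℤ) ∣ c.1 then p ^ 2 else p

/-- the height -/
def height (c : ℤ × ℤ) : ℕ := max (4 * c.1.natAbs ^ 3) (27 * c.2.natAbs ^ 2)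

/-- `I` is comparable to `J` on the family: `k J ≤ I ≤ K J` with positive constants -/
def Comparable (J : ℤ × ℤ → ℕ) (I : ℤ × ℤ → ℝ) : Prop :=
  ∃ k K : ℝ, 0 < k ∧ ∀ c ∈ Fam, k * (J c : ℝ) ≤ I c ∧ I c ≤ K * (J c : ℝ)

/-- The conclusion for the invariant `I`, with constants: the number of the curves with `I ≤ X` is
finite, it has the order of magnitude `X ^ e`; the average of `(5/4) ^ rank` over these curves is at
most `C`, and so is the average rank, and the proportion of the curves with `rank ≥ r` is at most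
`C (4/5) ^ r` for all `r`. -/
def Bounded (I : ℤ × ℤ → ℝ) (e : ℝ) : Prop :=
  ∃ c C X₀ : ℝ, 0 < c ∧ ∀ X : ℝ, ∃ F : Finset (ℤ × ℤ), (F : Set (ℤ × ℤ)) = {x | x ∈ Fam ∧ I x ≤ X} ∧
    (X₀ ≤ X → c * X ^ e ≤ (F.card : ℝ) ∧ (F.card : ℝ) ≤ C * X ^ e) ∧
    ∑ x ∈ F, (5 / 4 : ℝ) ^ rank x ≤ C * F.card ∧
    ∑ x ∈ F, (rank x : ℝ) ≤ C * F.card ∧
    ∀ r : ℕ, ((F.filter (fun x => r ≤ rank x)).card : ℝ) ≤ C * (4 / 5) ^ r * F.card

lemma Fam_eq : Fam = Pool.Agent.H82.RO.Fam 2 := by
  ext c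
  have h : Pool.Agent.W307.RT.HasT 2 (Pool.Agent.W307.RT.Sh c.1 c.2) ↔
      ∃ f : ZMod 2 × ZMod 2 →+ (E c).toAffine.Point, Function.Injective f :=
    Pool.Agent.W307.RT.tors_iff
  unfold Fam Pool.Agent.H82.RO.Fam Pool.Agent.H82.RO.Mn
  rw [Set.mem_ofPred_eq, Set.mem_ofPred_eq, h]

lemma rank_le_pow (r : ℕ) : (r : ℝ) ≤ 4 * (5 / 4 : ℝ) ^ r := by
  have h := one_add_mul_le_pow (a := (1 / 4 : ℝ)) (by norm_num) r
  have e : (1 + 1 / 4 : ℝ) = 5 / 4 := by norm_num
  rw [e] at h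
  linarith

theorem bounded_of {I : ℤ × ℤ → ℝ} {e : ℝ} (h : Pool.Agent.H82.RO.Concl 2 I e) :
    Bounded I e := by
  classical
  obtain ⟨⟨c, C, X₀, hc, hX1, h1⟩, C', hC', h2⟩ := h
  refine ⟨c, max C (4 * C'), X₀, hc, fun X => ?_⟩
  obtain ⟨F, hF, hF2⟩ := h2 X
  rw [← Fam_eq] at hF
  have hF2' : ∑ x ∈ F, (5 / 4 : ℝ) ^ rank x ≤ C' * F.card := hF2
  have hC4 : C' ≤ max C (4 * C') := le_max_of_le_right (by linarith)
  have hF0 : (0 : ℝ) ≤ F.card := Nat.cast_nonneg _
  refine ⟨F, hF, fun hX => ?_, ?_, ?_, fun r => ?_⟩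
  · obtain ⟨a1, a2⟩ := h1 X hX
    rw [← Fam_eq] at a1 a2
    have e1 : ({c | c ∈ Fam ∧ I c ≤ X}.ncard : ℝ) = F.card := by
      rw [← hF, Set.ncard_coe_finset]
    rw [e1] at a1 a2
    exact ⟨a1, a2.trans (mul_le_mul_of_nonneg_right (le_max_left _ _)
      (Real.rpow_nonneg (by linarith) _))⟩
  · exact hF2'.trans (mul_le_mul_of_nonneg_right hC4 hF0)
  · have h3 : ∑ x ∈ F, (rank x : ℝ) ≤ 4 * ∑ x ∈ F, (5 / 4 : ℝ) ^ rank x := by
      rw [mul_sum]
      exact sum_le_sum fun x _ => rank_le_pow _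
    have h4 : 4 * ∑ x ∈ F, (5 / 4 : ℝ) ^ rank x ≤ (4 * C') * F.card := by linarith
    exact (h3.trans h4).trans (mul_le_mul_of_nonneg_right (le_max_right _ _) hF0)
  · have h3 : ((F.filter (fun x => r ≤ rank x)).card : ℝ) * (5 / 4 : ℝ) ^ r ≤
        ∑ x ∈ F, (5 / 4 : ℝ) ^ rank x := by
      calc ((F.filter (fun x => r ≤ rank x)).card : ℝ) * (5 / 4 : ℝ) ^ r =
          ∑ _x ∈ F.filter (fun x => r ≤ rank x), (5 / 4 : ℝ) ^ r := by
            rw [sum_const, nsmul_eq_mul]
        _ ≤ ∑ x ∈ F.filter (fun x => r ≤ rank x), (5 / 4 : ℝ) ^ rank x := by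
            refine sum_le_sum fun x hx => ?_
            exact pow_le_pow_right₀ (by norm_num) (mem_filter.1 hx).2
        _ ≤ _ := sum_le_sum_of_subset_of_nonneg (filter_subset _ _) fun _ _ _ => by positivity
    have h4 : (5 / 4 : ℝ) ^ r * (4 / 5) ^ r = 1 := by
      rw [← mul_pow]
      norm_num
    have h5 : (0 : ℝ) < (4 / 5) ^ r := by positivity
    calc ((F.filter (fun x => r ≤ rank x)).card : ℝ) =
        ((F.filter (fun x => r ≤ rank x)).card : ℝ) * (5 / 4 : ℝ) ^ r * (4 / 5) ^ r := by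
          rw [mul_assoc, h4, mul_one]
      _ ≤ (C' * F.card) * (4 / 5) ^ r := mul_le_mul_of_nonneg_right (h3.trans hF2') h5.le
      _ ≤ (max C (4 * C') * F.card) * (4 / 5) ^ r :=
          mul_le_mul_of_nonneg_right (mul_le_mul_of_nonneg_right hC4 hF0) h5.le
      _ = _ := by ring

lemma comp {J : ℤ × ℤ → ℕ} {I : ℤ × ℤ → ℝ} (h : Comparable J I) :
    Pool.Agent.H82.RO.Comparable 2 (fun c => (J c : ℝ)) I := by
  unfold Comparable at h
  rw [Fam_eq] at h
  exact h

/-- **Theorem.** Let `I` be any invariant which is comparable to the conductor, to the minimal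
discriminant or to the height. For all elliptic curves over `ℚ` with full rational two-torsion,
ordered by `I`, the average of `(5/4) ^ rank` is bounded; the average rank is bounded, and the
proportion of the curves of rank at least `r` is at most `C (4/5) ^ r`. The number of the curves
with `I ≤ X` is of the order `X ^ (2/3)` by conductor, `X ^ (1/3)` by discriminant and by height. -/
theorem result :
    (∀ I : ℤ × ℤ → ℝ, Comparable cond6 I → Bounded I (2 / 3)) ∧
    (∀ I : ℤ × ℤ → ℝ, Comparable disc I ∨ Comparable height I → Bounded I (1 / 3)) := by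
  refine ⟨fun I hI => ?_, fun I hI => ?_⟩
  · have h := Pool.Agent.H82.FT.main_cond I (comp hI)
    have e : (2 / ((3 : ℕ) : ℝ)) = 2 / 3 := by norm_num
    rw [e] at h
    exact bounded_of h
  · have h := Pool.Agent.H82.FT.main_disc I (hI.imp comp comp)
    have e : (2 / ((6 : ℕ) : ℝ)) = 1 / 3 := by norm_num
    rw [e] at h
    exact bounded_of h

end Pool.Agent.Results.MP_6073f3_nt.FullTwoTorsionThreeOrderings
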