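import Mathlib
import Pool.Agent.H82.NR.Fam
import Pool.Agent.H18X.Adm

/-!
# The ranks of the elliptic curves over `ℚ` near EVERY elliptic curve

The elliptic curves over `ℚ`, ordered by the naive height, are the curves `y² = x³ + A x + B` where
`(A, B)` runs through the minimal pairs. A large family is a set of minimal pairs which is given by
congruences modulo some `M` and by the condition that `4 A³ + 27 B²` is not divisible by the square of a
prime which does not divide `M`, and which has positive lower density in the set of all minimal pairs.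

The constants of Poonen and Rains are
`C_{2,k} = ∏_{j ≥ 0} (1 + 2^{-j})^{-1} ∏_{1 ≤ i ≤ k} 2 / (2^i - 1)`; their sum over `k ≥ 0` is one.

**Theorem.** For EVERY elliptic curve `(A₀, B₀)`, for all `N ≥ 1`, `ε > 0` and `K` there is a large family
all of whose members `(A, B)` are congruent to `(A₀, B₀)` modulo `N`, in which, ordered by height:
* for all `k`, the proportion of the curves of rank at least `k` is at most `∑_{j ≥ k} C_{2,j} + ε`;
* for `1 ≤ k ≤ K`, the proportion of the curves of rank at least `k` is at most `2^{-k(k-1)/2}`;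
* the proportion of the curves whose group of rational points is finite (of odd order) is at least
  `C_{2,0} - ε`, where `C_{2,0} = 0.2097...`.

So in EVERY residue class modulo EVERY `N` which contains an elliptic curve at all, whatever the reduction
modulo the primes dividing `N` is (additive, potentially good or not, `p = 2` and `p = 3` included), a
positive proportion of all elliptic curves over `ℚ` has rank `0`, and is in a large family in which the
proportion of the rank at least `k` is superexponentially small.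

The average orders of the `n`-Selmer groups, `n ≤ 5` (Bhargava-Shankar), give the bound `5 / (5^k - 1)`
for the proportion of the rank at least `k`, which decreases only exponentially, and they do not give
curves of rank `0` without an information on the root numbers in the residue class.

The proof is project JN (`Pool/Agent/H18N`, helper18, helper68 and the seats named there; its idea is
explained in `Pool/Agent/Results/MP_78d38b_nt/NearEveryCurve.lean`) for `F = ℚ`, made for the boxes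
`4 |A|³ ≤ X`, `27 B² ≤ X` of the naive height (`H18N/REGV.lean`, `H18N/FAMNV.lean`, `H82/NR`), with the
bound of the rank by the dimension of the `2`-Selmer group, and an estimate of the tails of the law of
Poonen and Rains (helper93). It replaces `LargeFamiliesOfSmallRank` (helper93), which gave one such
family with a condition at `2` (now `Pool/Agent/H93PR/LargeFamiliesOfSmallRank.lean`).
-/

set_option autoImplicit false

namespace Pool.Agent.Results.MP_6073f3_nt.NearEveryCurve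

/-- the elliptic curve `y² = x³ + A x + B` over `ℚ`, where `c = (A, B)` -/
def E (c : ℤ × ℤ) : WeierstrassCurve ℚ := ⟨0, 0, 0, (c.1 : ℚ), (c.2 : ℚ)⟩

/-- the rank of the group of the rational points -/
noncomputable def rank (c : ℤ × ℤ) : ℕ := Module.finrank ℤ (E c).toAffine.Point

/-- `4 A³ + 27 B²` -/
def disc (c : ℤ × ℤ) : ℤ := 4 * c.1 ^ 3 + 27 * c.2 ^ 2

/-- The minimal pairs: the pairs `(A, B)` of integers with `4 A³ + 27 B² ≠ 0` and no prime `p` with
`p⁴ ∣ A` and `p⁶ ∣ B`. Each elliptic curve over `ℚ` is isomorphic to exactly one such curve. -/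
def Curves : Set (ℤ × ℤ) :=
  {c | disc c ≠ 0 ∧ ∀ p : ℕ, p.Prime → ¬ ((p : ℤ) ^ 4 ∣ c.1 ∧ (p : ℤ) ^ 6 ∣ c.2)}

/-- the height `max (4 |A|³) (27 B²)` -/
def height (c : ℤ × ℤ) : ℕ := max (4 * c.1.natAbs ^ 3) (27 * c.2.natAbs ^ 2)

/-- the curves of height at most `X` -/
def UpTo (X : ℝ) : Set (ℤ × ℤ) := {c | c ∈ Curves ∧ (height c : ℝ) ≤ X}

/-- `R` is a union of residue classes modulo `M` -/
def Periodic (M : ℕ) (R : Set (ℤ × ℤ)) : Prop :=
  ∀ c c' : ℤ × ℤ, c ∈ R → (M : ℤ) ∣ c'.1 - c.1 → (M : ℤ) ∣ c'.2 - c.2 → c' ∈ R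

/-- The family given by `M` and `R`: the pairs in `R` with `4 A³ + 27 B² ≠ 0` such that `4 A³ + 27 B²` is
not divisible by the square of a prime which does not divide `M`. -/
def Family (M : ℕ) (R : Set (ℤ × ℤ)) : Set (ℤ × ℤ) :=
  {c | c ∈ R ∧ disc c ≠ 0 ∧ ∀ q : ℕ, q.Prime → ¬ q ∣ M → ¬ (q : ℤ) ^ 2 ∣ disc c}

/-- `G` consists of minimal pairs, and has positive lower density among them. -/
def Large (G : Set (ℤ × ℤ)) : Prop :=
  G ⊆ Curves ∧ ∃ c X₀ : ℝ, 0 < c ∧ ∀ X : ℝ, X₀ ≤ X →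
    0 < (UpTo X).ncard ∧ c * ((UpTo X).ncard : ℝ) ≤ ((UpTo X ∩ G).ncard : ℝ)

/-- The constant `C_{2,k}` of Poonen and Rains. -/
noncomputable def poonenRains (k : ℕ) : ℝ :=
  (∏' j : ℕ, (1 + (2 : ℝ)⁻¹ ^ j)⁻¹) * ∏ i ∈ Finset.range k, (2 / ((2 : ℝ) ^ (i + 1) - 1))

/-- `1 - ∑_{j < k} C_{2,j}`, that is, `∑_{j ≥ k} C_{2,j}` -/
noncomputable def tail (k : ℕ) : ℝ := 1 - ∑ j ∈ Finset.range k, poonenRains j

theorem tail_eq (k : ℕ) : tail k = Pool.Agent.H93PR.tl k := rfl

theorem exists_gap (K : ℕ) : ∃ δ : ℝ, 0 < δ ∧ ∀ k : ℕ, 1 ≤ k → k ≤ K →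
    tail k + δ ≤ (2 : ℝ)⁻¹ ^ (k * (k - 1) / 2) := by
  induction K with
  | zero => exact ⟨1, one_pos, fun k h1 h2 => by omega⟩
  | succ K ih =>
    obtain ⟨δ, hδ, h⟩ := ih
    have h1 := Pool.Agent.H93PR.tl_lt (K + 1) (by omega)
    refine ⟨min δ ((2 : ℝ)⁻¹ ^ ((K + 1) * (K + 1 - 1) / 2) - Pool.Agent.H93PR.tl (K + 1)),
      lt_min hδ (by linarith), fun k hk1 hk2 => ?_⟩
    rcases Nat.lt_or_ge k (K + 1) with h2 | h2
    · have h3 := h k hk1 (by omega)
      have h4 := min_le_left δ ((2 : ℝ)⁻¹ ^ ((K + 1) * (K + 1 - 1) / 2) - Pool.Agent.H93PR.tl (K + 1))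
      linarith
    · have h3 : k = K + 1 := by omega
      subst h3
      have h4 := min_le_right δ ((2 : ℝ)⁻¹ ^ ((K + 1) * (K + 1 - 1) / 2) - Pool.Agent.H93PR.tl (K + 1))
      rw [tail_eq]
      linarith

section rank

open Pool.Agent.H68K.PR (Gd)
open Pool.Agent.H93PR.QR (io frk frk_dec base_eq fin_odd)
open Pool.Agent.N874.PP (sW)
open NumberField

theorem rank_le {c : ℤ × ℤ} {k m : ℕ} (hm : m ≤ 2 ^ k) (h : Gd m (io c)) : rank c ≤ k := by
  obtain ⟨h1, h2⟩ := Pool.Agent.H18X.sha_of_gd h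
  have hpos : 0 < m := Pool.Agent.H18X.selN_pos h.2
  obtain ⟨s, hs⟩ : ∃ s : ℕ, s = Nat.card (Pool.Agent.H68K.PR.Sha2
    (sW (((io c).1 : 𝓞 ℚ) : ℚ) (((io c).2 : 𝓞 ℚ) : ℚ))) := ⟨_, rfl⟩
  have h3 : 2 ^ frk ((sW (((io c).1 : 𝓞 ℚ) : ℚ) (((io c).2 : 𝓞 ℚ) : ℚ)).baseChange ℚ)
      (fun a b => Classical.propDecidable (a = b)) * s = m := by
    rw [hs]
    exact h2
  rw [base_eq, frk_dec _ _ instDecidableEqRat] at h3
  have h4 : 2 ^ rank c * s = m := h3
  have hs0 : 0 < s := by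
    rcases Nat.eq_zero_or_pos s with h5 | h5
    · rw [h5, Nat.mul_zero] at h4
      omega
    · exact h5
  have h5 : 2 ^ rank c ≤ 2 ^ k := by
    calc 2 ^ rank c ≤ 2 ^ rank c * s := Nat.le_mul_of_pos_right _ hs0
      _ = m := h4
      _ ≤ 2 ^ k := hm
  exact (Nat.pow_le_pow_iff_right (by norm_num)).1 h5

theorem fin_of {c : ℤ × ℤ} {m : ℕ} (hm : m ≤ 2 ^ 0) (h : Gd m (io c)) :
    Finite (E c).toAffine.Point ∧ Odd (Nat.card (E c).toAffine.Point) := by
  have hpos : 0 < m := Pool.Agent.H18X.selN_pos h.2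
  have h1 : m = 2 ^ 0 := by
    rw [pow_zero] at hm ⊢
    omega
  rw [h1] at h
  exact fin_odd h

end rank

/-- **Theorem.** For every minimal pair `c₀ = (A₀, B₀)`, every `N ≥ 1`, `ε > 0` and `K` there is a family
of minimal pairs, given by congruences modulo `M` which imply `(A, B) = (A₀, B₀)` modulo `N`, and by the
squarefreeness of `4 A³ + 27 B²` outside `M`, of positive lower density among all minimal pairs, such that
for all large `X`, among its members of height at most `X`: the proportion of the curves of rank at least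
`k` is at most `∑_{j ≥ k} C_{2,j} + ε`, for all `k`; it is at most `2^{-k(k-1)/2}` for `1 ≤ k ≤ K`; and the
proportion of the curves whose group of rational points is finite and of odd order is at least
`C_{2,0} - ε`. -/
theorem result (c₀ : ℤ × ℤ) (hc₀ : c₀ ∈ Curves) (N : ℕ) (hN : 0 < N) (ε : ℝ) (hε : 0 < ε) (K : ℕ) :
    ∃ (M : ℕ) (R : Set (ℤ × ℤ)), 0 < M ∧ Periodic M R ∧
      (∀ c ∈ R, (N : ℤ) ∣ c.1 - c₀.1 ∧ (N : ℤ) ∣ c.2 - c₀.2) ∧ Large (Family M R) ∧
      ∃ X₀ : ℝ, ∀ X : ℝ, X₀ ≤ X →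
        (∀ k : ℕ, ({c ∈ UpTo X ∩ Family M R | k ≤ rank c}.ncard : ℝ) ≤
          (tail k + ε) * ((UpTo X ∩ Family M R).ncard : ℝ)) ∧
        (∀ k : ℕ, 1 ≤ k → k ≤ K → ({c ∈ UpTo X ∩ Family M R | k ≤ rank c}.ncard : ℝ) ≤
          (2 : ℝ)⁻¹ ^ (k * (k - 1) / 2) * ((UpTo X ∩ Family M R).ncard : ℝ)) ∧
        (poonenRains 0 - ε) * ((UpTo X ∩ Family M R).ncard : ℝ) ≤
          ({c ∈ UpTo X ∩ Family M R | Finite (E c).toAffine.Point ∧
            Odd (Nat.card (E c).toAffine.Point)}.ncard : ℝ) := by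
  obtain ⟨δ, hδ, hgap⟩ := exists_gap K
  obtain ⟨M, R, hM, hR, hRN, hmin, d₀, X₀, hd₀, hX₀, h⟩ :=
    Pool.Agent.H82.NR.famv c₀ hc₀.2 N hN (min ε δ) (lt_min hε hδ)
  have hFm : Pool.Agent.H93PR.QR.Fm M R = Family M R := rfl
  rw [hFm] at hmin h
  have hsub : Family M R ⊆ Curves := fun c hc => ⟨hc.2.1, hmin c hc⟩
  have hfin : ∀ X : ℝ, {c : ℤ × ℤ | (Pool.Agent.H93PR.QR.height c : ℝ) ≤ X}.Finite :=
    Pool.Agent.H93PR.QR.height_finite
  have hset : ∀ X : ℝ, UpTo X ∩ Family M R =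
      {c : ℤ × ℤ | (Pool.Agent.H93PR.QR.height c : ℝ) ≤ X ∧ c ∈ Family M R} := by
    intro X
    ext c
    constructor
    · rintro ⟨h1, h2⟩
      exact ⟨h1.2, h2⟩
    · rintro ⟨h1, h2⟩
      exact ⟨⟨hsub h2, h1⟩, h2⟩
  refine ⟨M, R, hM, hR, hRN, ⟨hsub, d₀, X₀, hd₀, fun X hX => ?_⟩, X₀, fun X hX => ?_⟩
  · obtain ⟨h1, h2, -⟩ := h X hX
    have h3 : (UpTo X).ncard ≤ {c : ℤ × ℤ | (Pool.Agent.H93PR.QR.height c : ℝ) ≤ X}.ncard := by
      apply Set.ncard_le_ncard
      · intro c hc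
        exact hc.2
      · exact hfin X
    have h4 : (UpTo X ∩ Family M R).ncard ≤ (UpTo X).ncard :=
      Set.ncard_le_ncard Set.inter_subset_left ((hfin X).subset fun c hc => hc.2)
    rw [hset X] at h4 ⊢
    refine ⟨lt_of_lt_of_le h1 h4, ?_⟩
    refine le_trans (mul_le_mul_of_nonneg_left ?_ hd₀.le) h2
    exact_mod_cast h3
  · obtain ⟨-, -, h3⟩ := h X hX
    rw [hset X]
    obtain ⟨n, hn⟩ : ∃ n : ℝ, n = ({c : ℤ × ℤ | (Pool.Agent.H93PR.QR.height c : ℝ) ≤ X ∧
        c ∈ Family M R}.ncard : ℝ) := ⟨_, rfl⟩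
    have hn0 : 0 ≤ n := by rw [hn]; exact Nat.cast_nonneg _
    rw [← hn] at h3 ⊢
    have hfinG : {c : ℤ × ℤ | (Pool.Agent.H93PR.QR.height c : ℝ) ≤ X ∧ c ∈ Family M R}.Finite :=
      (hfin X).subset fun c hc => hc.1
    -- the ranks
    have key : ∀ k : ℕ, ({c ∈ {c : ℤ × ℤ | (Pool.Agent.H93PR.QR.height c : ℝ) ≤ X ∧ c ∈ Family M R} |
        k ≤ rank c}.ncard : ℝ) ≤ (tail k + min ε δ) * n := by
      intro k
      rcases Nat.eq_zero_or_pos k with hk | hk
      · have h4 : {c ∈ {c : ℤ × ℤ | (Pool.Agent.H93PR.QR.height c : ℝ) ≤ X ∧ c ∈ Family M R} |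
            k ≤ rank c}.ncard ≤
            {c : ℤ × ℤ | (Pool.Agent.H93PR.QR.height c : ℝ) ≤ X ∧ c ∈ Family M R}.ncard :=
          Set.ncard_le_ncard (fun c hc => hc.1) hfinG
        have h5 : (({c ∈ {c : ℤ × ℤ | (Pool.Agent.H93PR.QR.height c : ℝ) ≤ X ∧ c ∈ Family M R} |
            k ≤ rank c}.ncard : ℕ) : ℝ) ≤ n := by
          rw [hn]
          exact_mod_cast h4
        have h6 : tail k = 1 := by
          unfold tail
          rw [hk, Finset.range_zero, Finset.sum_empty, sub_zero]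
        have h7 : 0 ≤ min ε δ * n := mul_nonneg (lt_min hε hδ).le hn0
        rw [h6, add_mul, one_mul]
        linarith
      · obtain ⟨l, rfl⟩ : ∃ l, k = l + 1 := ⟨k - 1, by omega⟩
        have h4 := h3 l
        have h5 : {c ∈ {c : ℤ × ℤ | (Pool.Agent.H93PR.QR.height c : ℝ) ≤ X ∧ c ∈ Family M R} |
            l + 1 ≤ rank c}.ncard ≤ {c : ℤ × ℤ | (Pool.Agent.H93PR.QR.height c : ℝ) ≤ X ∧
            c ∈ Family M R ∧ ¬ ∃ m ≤ 2 ^ l,
            Pool.Agent.H68K.PR.Gd m (Pool.Agent.H93PR.QR.io c)}.ncard := by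
          apply Set.ncard_le_ncard
          · rintro c ⟨hc, hr⟩
            refine ⟨hc.1, hc.2, ?_⟩
            rintro ⟨m, hm, hG⟩
            have h6 := rank_le hm hG
            have h7 : l + 1 ≤ rank c := hr
            omega
          · exact hfinG.subset fun c hc => ⟨hc.1, hc.2.1⟩
        have h6 : (({c ∈ {c : ℤ × ℤ | (Pool.Agent.H93PR.QR.height c : ℝ) ≤ X ∧ c ∈ Family M R} |
            l + 1 ≤ rank c}.ncard : ℕ) : ℝ) ≤ ({c : ℤ × ℤ | (Pool.Agent.H93PR.QR.height c : ℝ) ≤ X ∧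
            c ∈ Family M R ∧ ¬ ∃ m ≤ 2 ^ l,
            Pool.Agent.H68K.PR.Gd m (Pool.Agent.H93PR.QR.io c)}.ncard : ℝ) := by exact_mod_cast h5
        exact h6.trans h4
    refine ⟨fun k => (key k).trans (mul_le_mul_of_nonneg_right ?_ hn0),
      fun k hk1 hk2 => (key k).trans (mul_le_mul_of_nonneg_right ?_ hn0), ?_⟩
    · have := min_le_left ε δ
      linarith
    · have h4 := hgap k hk1 hk2
      have := min_le_right ε δ
      linarith
    · have h4 := h3 0
      have e1 : (1 - ∑ j ∈ Finset.range (0 + 1), Pool.Agent.H68K.PR.pr2 j + min ε δ) =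
          1 - poonenRains 0 + min ε δ := by
        rw [zero_add, Finset.sum_range_one]
        rfl
      rw [e1] at h4
      have h5 : {c : ℤ × ℤ | (Pool.Agent.H93PR.QR.height c : ℝ) ≤ X ∧ c ∈ Family M R}.ncard ≤
          {c : ℤ × ℤ | (Pool.Agent.H93PR.QR.height c : ℝ) ≤ X ∧ c ∈ Family M R ∧
            ¬ ∃ m ≤ 2 ^ 0, Pool.Agent.H68K.PR.Gd m (Pool.Agent.H93PR.QR.io c)}.ncard +
          {c ∈ {c : ℤ × ℤ | (Pool.Agent.H93PR.QR.height c : ℝ) ≤ X ∧ c ∈ Family M R} |
            Finite (E c).toAffine.Point ∧ Odd (Nat.card (E c).toAffine.Point)}.ncard := by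
        refine le_trans (Set.ncard_le_ncard ?_ ?_) (Set.ncard_union_le _ _)
        · rintro c ⟨h6, h7⟩
          by_cases h8 : ∃ m ≤ 2 ^ 0, Pool.Agent.H68K.PR.Gd m (Pool.Agent.H93PR.QR.io c)
          · right
            obtain ⟨m, hm, hG⟩ := h8
            exact ⟨⟨h6, h7⟩, fin_of hm hG⟩
          · left
            exact ⟨h6, h7, h8⟩
        · refine Set.Finite.union ?_ ?_
          · exact hfinG.subset fun c hc => ⟨hc.1, hc.2.1⟩
          · exact hfinG.subset fun c hc => hc.1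
      have h6 : n ≤ ({c : ℤ × ℤ | (Pool.Agent.H93PR.QR.height c : ℝ) ≤ X ∧ c ∈ Family M R ∧
            ¬ ∃ m ≤ 2 ^ 0, Pool.Agent.H68K.PR.Gd m (Pool.Agent.H93PR.QR.io c)}.ncard : ℝ) +
          ({c ∈ {c : ℤ × ℤ | (Pool.Agent.H93PR.QR.height c : ℝ) ≤ X ∧ c ∈ Family M R} |
            Finite (E c).toAffine.Point ∧ Odd (Nat.card (E c).toAffine.Point)}.ncard : ℝ) := by
        rw [hn]
        exact_mod_cast h5
      have h7 : min ε δ * n ≤ ε * n := mul_le_mul_of_nonneg_right (min_le_left _ _) hn0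
      have h8 : (1 - poonenRains 0 + min ε δ) * n = n - poonenRains 0 * n + min ε δ * n := by ring
      rw [h8] at h4
      rw [sub_mul]
      linarith

end Pool.Agent.Results.MP_6073f3_nt.NearEveryCurve
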