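import Mathlib
import Pool.Agent.H18N.TwV
import Pool.Agent.H18X.Adm

/-!
# The ranks of the random quadratic twists of nearly all elliptic curves over `ℚ` near EVERY elliptic curve

The elliptic curves over `ℚ`, ordered by the naive height, are the curves `y² = x³ + A x + B` where
`(A, B)` runs through the minimal pairs. A large family is a set of minimal pairs which is given by
congruences modulo some `M` and by the condition that `4 A³ + 27 B²` is not divisible by the square of a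
prime which does not divide `M`, and which has positive lower density in the set of all minimal pairs.

The constants of Poonen and Rains are
`C_{2,k} = ∏_{j ≥ 0} (1 + 2^{-j})^{-1} ∏_{1 ≤ i ≤ k} 2 / (2^i - 1)`; their sum over `k ≥ 0` is one, and
given the parity of the dimension of the `2`-Selmer group the probabilities are `2 C_{2,k}`.

**Theorem.** For EVERY elliptic curve `(A₀, B₀)`, for all `N ≥ 1` and `ε > 0` there is an `m₀` such that for
all `m ≥ m₀` there are a set `S` of at least `m` primes and a large family with the following properties.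
All its members `E` and all the quadratic twists `E_J` of its members by the numbers `∏_{q ∈ J} q`, `J ⊆ S`,
are minimal and congruent to `(A₀, B₀)` modulo `N`. For all but at most a proportion `ε` of the members `E`
of height at most `X`, if `X` is large, there is a parity `t` such that for `m₀ ≤ i ≤ m`:
* for all `k` the proportion of the sets `J` of `i` elements of `S`, for which the rank of `E_J` is at most
  `k`, is at least `∑_{j ≤ k, j = t + i mod 2} 2 C_{2,j} - ε`;
* if `t + i` is even, the group `E_J(ℚ)` is finite of odd order for a proportion at least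
  `2 C_{2,0} - ε` of the sets `J` of `i` elements of `S`, where `2 C_{2,0} = 0.4194...`.

So for nearly all members of the family, whatever the residue class and the reduction at the primes
dividing `N` is, at least 41.9 percent of the twists by `i` primes of `S` have rank `0`, for all `i` of one
parity, and at least 83.8 percent (`2 C_{2,1} = 0.8388...`) have rank at most `1`, for all `i` of the other
parity, and the ranks at least `k` are superexponentially rare in both cases. The set `S` does not depend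
on the curve, the curves are ordered by the height, and nothing is said on the orders of the twists.
The minimalist conjecture predicts that the curves of rank at least `2` have proportion zero.

The proof is project JN (`Pool/Agent/H18N`, helper18, helper68 and the seats named there; its idea is
explained in `Pool/Agent/Results/MP_8cb858_nt/TwistLawNearEveryCurve.lean`) for `F = ℚ`, made for the boxes
`4 |A|³ ≤ X`, `27 B² ≤ X` of the naive height by helper82 (`H18N/REGV.lean`, `H82/NR`), with the bound of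
the rank by the dimension of the `2`-Selmer group (helper93).
-/

set_option autoImplicit false

namespace Pool.Agent.Results.MP_6073f3_nt.RanksOfRandomTwists

open scoped Classical

/-- the elliptic curve `y² = x³ + A x + B` over `ℚ`, where `c = (A, B)` -/
def E (c : ℤ × ℤ) : WeierstrassCurve ℚ := ⟨0, 0, 0, (c.1 : ℚ), (c.2 : ℚ)⟩

/-- the rank of the group of the rational points -/
noncomputable def rank (c : ℤ × ℤ) : ℕ := Module.finrank ℤ (E c).toAffine.Point

/-- `4 A³ + 27 B²` -/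
def disc (c : ℤ × ℤ) : ℤ := 4 * c.1 ^ 3 + 27 * c.2 ^ 2

/-- The minimal pairs: the pairs `(A, B)` of integers with `4 A³ + 27 B² ≠ 0` and no prime `p` with
`p⁴ ∣ A` and `p⁶ ∣ B`. Each elliptic curve over `ℚ` is isomorphic to exactly one such curve. -/
def Curves : Set (ℤ × ℤ) :=
  {c | disc c ≠ 0 ∧ ∀ p : ℕ, p.Prime → ¬ ((p : ℤ) ^ 4 ∣ c.1 ∧ (p : ℤ) ^ 6 ∣ c.2)}

/-- the height `max (4 |A|³) (27 B²)` -/
def height (c : ℤ × ℤ) : ℕ := max (4 * c.1.natAbs ^ 3) (27 * c.2.natAbs ^ 2)

/-- the curves of height at most `X` -/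
def UpTo (X : ℝ) : Set (ℤ × ℤ) := {c | c ∈ Curves ∧ (height c : ℝ) ≤ X}

/-- `R` is a union of residue classes modulo `M` -/
def Periodic (M : ℕ) (R : Set (ℤ × ℤ)) : Prop :=
  ∀ c c' : ℤ × ℤ, c ∈ R → (M : ℤ) ∣ c'.1 - c.1 → (M : ℤ) ∣ c'.2 - c.2 → c' ∈ R

/-- The family given by `M` and `R`: the pairs in `R` with `4 A³ + 27 B² ≠ 0` such that `4 A³ + 27 B²` is
not divisible by the square of a prime which does not divide `M`. -/
def Family (M : ℕ) (R : Set (ℤ × ℤ)) : Set (ℤ × ℤ) :=
  {c | c ∈ R ∧ disc c ≠ 0 ∧ ∀ q : ℕ, q.Prime → ¬ q ∣ M → ¬ (q : ℤ) ^ 2 ∣ disc c}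

/-- `G` consists of minimal pairs, and has positive lower density among them. -/
def Large (G : Set (ℤ × ℤ)) : Prop :=
  G ⊆ Curves ∧ ∃ c X₀ : ℝ, 0 < c ∧ ∀ X : ℝ, X₀ ≤ X →
    0 < (UpTo X).ncard ∧ c * ((UpTo X).ncard : ℝ) ≤ ((UpTo X ∩ G).ncard : ℝ)

/-- The quadratic twist `(A D², B D³)` by `D = ∏_{q ∈ J} q`. -/
def twist (J : Finset ℕ) (c : ℤ × ℤ) : ℤ × ℤ :=
  (c.1 * (∏ q ∈ J, (q : ℤ)) ^ 2, c.2 * (∏ q ∈ J, (q : ℤ)) ^ 3)

/-- The constant `C_{2,k}` of Poonen and Rains. -/
noncomputable def poonenRains (k : ℕ) : ℝ :=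
  (∏' j : ℕ, (1 + (2 : ℝ)⁻¹ ^ j)⁻¹) * ∏ i ∈ Finset.range k, (2 / ((2 : ℝ) ^ (i + 1) - 1))

/-- The law of Poonen and Rains given the parity: `2 C_{2,k}` if `k` has the parity of `s`, and `0`
otherwise. -/
noncomputable def parityLaw (s k : ℕ) : ℝ := if Even (s + k) then 2 * poonenRains k else 0

/-- The proportion of the sets `J` of `i` elements of `S` with the property `P J` is at least `x`. -/
def Share (S : Finset ℕ) (i : ℕ) (P : Finset ℕ → Prop) (x : ℝ) : Prop :=
  x * (S.card.choose i : ℝ) ≤ (((S.powersetCard i).filter P).card : ℝ)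

/-- The ranks of the twists of `c` by the products of `i` primes in `S`, `m₀ ≤ i ≤ m`, obey the bounds
given the parity, up to `ε`. -/
def TwistLaw (S : Finset ℕ) (m₀ m : ℕ) (ε : ℝ) (c : ℤ × ℤ) : Prop :=
  ∃ t : ℕ, ∀ i, m₀ ≤ i → i ≤ m →
    (∀ k : ℕ, Share S i (fun J => rank (twist J c) ≤ k)
      (∑ j ∈ Finset.range (k + 1), parityLaw (t + i) j - ε)) ∧
    Share S i (fun J => Finite (E (twist J c)).toAffine.Point ∧
      Odd (Nat.card (E (twist J c)).toAffine.Point)) (parityLaw (t + i) 0 - ε)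

section rank

open Pool.Agent.H68K.PR (Gd)
open Pool.Agent.H93PR.QR (io frk frk_dec base_eq fin_odd)
open Pool.Agent.N874.PP (sW)
open NumberField

theorem rank_le {c : ℤ × ℤ} {k m : ℕ} (hm : m ≤ 2 ^ k) (h : Gd m (io c)) : rank c ≤ k := by
  obtain ⟨h1, h2⟩ := Pool.Agent.H18X.sha_of_gd h
  have hpos : 0 < m := Pool.Agent.H18X.selN_pos h.2
  obtain ⟨s, hs⟩ : ∃ s : ℕ, s = Nat.card (Pool.Agent.H68K.PR.Sha2
    (sW (((io c).1 : 𝓞 ℚ) : ℚ) (((io c).2 : 𝓞 ℚ) : ℚ))) := ⟨_, rfl⟩
  have h3 : 2 ^ frk ((sW (((io c).1 : 𝓞 ℚ) : ℚ) (((io c).2 : 𝓞 ℚ) : ℚ)).baseChange ℚ)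
      (fun a b => Classical.propDecidable (a = b)) * s = m := by
    rw [hs]
    exact h2
  rw [base_eq, frk_dec _ _ instDecidableEqRat] at h3
  have h4 : 2 ^ rank c * s = m := h3
  have hs0 : 0 < s := by
    rcases Nat.eq_zero_or_pos s with h5 | h5
    · rw [h5, Nat.mul_zero] at h4
      omega
    · exact h5
  have h5 : 2 ^ rank c ≤ 2 ^ k := by
    calc 2 ^ rank c ≤ 2 ^ rank c * s := Nat.le_mul_of_pos_right _ hs0
      _ = m := h4
      _ ≤ 2 ^ k := hm
  exact (Nat.pow_le_pow_iff_right (by norm_num)).1 h5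

theorem fin_of {c : ℤ × ℤ} {m : ℕ} (hm : m ≤ 2 ^ 0) (h : Gd m (io c)) :
    Finite (E c).toAffine.Point ∧ Odd (Nat.card (E c).toAffine.Point) := by
  have hpos : 0 < m := Pool.Agent.H18X.selN_pos h.2
  have h1 : m = 2 ^ 0 := by
    rw [pow_zero] at hm ⊢
    omega
  rw [h1] at h
  exact fin_odd h

end rank

theorem share_mono {S : Finset ℕ} {i : ℕ} {P Q : Finset ℕ → Prop} {x : ℝ}
    (h : x * (S.card.choose i : ℝ) ≤ (((S.powersetCard i).filter P).card : ℝ))
    (hPQ : ∀ J, P J → Q J) : Share S i Q x := by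
  refine h.trans ?_
  have hsub : (S.powersetCard i).filter P ⊆ (S.powersetCard i).filter Q := by
    intro J hJ
    rw [Finset.mem_filter] at hJ ⊢
    exact ⟨hJ.1, hPQ J hJ.2⟩
  exact_mod_cast Finset.card_le_card hsub

theorem law_of {S : Finset ℕ} {m₀ m : ℕ} {ε : ℝ} {c : ℤ × ℤ}
    (h : Pool.Agent.H18N.TwV.Qz S m₀ m ε c) : TwistLaw S m₀ m ε c := by
  obtain ⟨t, ht⟩ := h
  refine ⟨t, fun i h1 h2 => ⟨fun k => share_mono (ht i h1 h2 k) ?_, ?_⟩⟩
  · rintro J ⟨n, hn, hG⟩
    exact rank_le hn hG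
  · have h3 := ht i h1 h2 0
    rw [zero_add, Finset.sum_range_one] at h3
    refine share_mono h3 ?_
    rintro J ⟨n, hn, hG⟩
    exact fin_of hn hG

/-- **Theorem.** For every minimal pair `c₀ = (A₀, B₀)`, every `N ≥ 1` and `ε > 0` there is `m₀` such that
for all `m ≥ m₀` there are a set `S` of at least `m` primes and a family of minimal pairs, given by
congruences modulo `M` and by the squarefreeness of `4 A³ + 27 B²` outside `M`, of positive lower density
among all minimal pairs, such that all the twists of its members by the products of primes in `S` are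
minimal and congruent to `c₀` modulo `N`, and such that for all large `X` all but at most a proportion `ε`
of its members of height at most `X` satisfy `TwistLaw`. -/
theorem result (c₀ : ℤ × ℤ) (hc₀ : c₀ ∈ Curves) (N : ℕ) (hN : 0 < N) (ε : ℝ) (hε : 0 < ε) :
    ∃ m₀ : ℕ, ∀ m ≥ m₀, ∃ (S : Finset ℕ) (M : ℕ) (R : Set (ℤ × ℤ)),
      m ≤ S.card ∧ 0 < M ∧ (∀ q ∈ S, q.Prime ∧ q ∣ M) ∧ Periodic M R ∧
      (∀ c ∈ Family M R, ∀ J ⊆ S, twist J c ∈ Curves ∧
        (N : ℤ) ∣ (twist J c).1 - c₀.1 ∧ (N : ℤ) ∣ (twist J c).2 - c₀.2) ∧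
      Large (Family M R) ∧
      ∃ X₀ : ℝ, ∀ X : ℝ, X₀ ≤ X →
        ({c ∈ UpTo X ∩ Family M R | ¬ TwistLaw S m₀ m ε c}.ncard : ℝ) ≤
          ε * ((UpTo X ∩ Family M R).ncard : ℝ) := by
  obtain ⟨m₀, hm₀⟩ := Pool.Agent.H18N.TwV.twv c₀ hc₀.2 N hN ε hε
  refine ⟨m₀, fun m hmm => ?_⟩
  obtain ⟨S, M, R, hmS, hM, hS, hR, hmin, d₀, X₀, hd₀, hX₀, h⟩ := hm₀ m hmm
  have hFm : Pool.Agent.H93PR.QR.Fm M R = Family M R := rfl
  rw [hFm] at hmin h
  have htw : ∀ (J : Finset ℕ) (c : ℤ × ℤ), Pool.Agent.H18N.TwV.tw J c = twist J c :=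
    fun _ _ => rfl
  have hcur : ∀ c ∈ Family M R, ∀ J ⊆ S, twist J c ∈ Curves := by
    intro c hc J hJ
    refine ⟨?_, (hmin c hc J hJ).2⟩
    have hD : (∏ q ∈ J, (q : ℤ)) ≠ 0 := by
      rw [Finset.prod_ne_zero_iff]
      intro q hq
      exact_mod_cast ((hS q (hJ hq)).1).ne_zero
    have e : disc (twist J c) = disc c * (∏ q ∈ J, (q : ℤ)) ^ 6 := by
      unfold disc twist
      ring
    rw [e]
    exact mul_ne_zero hc.2.1 (pow_ne_zero _ hD)
  have hsub : Family M R ⊆ Curves := by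
    intro c hc
    have h1 := hcur c hc ∅ (Finset.empty_subset _)
    have e : twist ∅ c = c := by
      unfold twist
      rw [Finset.prod_empty, one_pow, one_pow, mul_one, mul_one]
    rwa [e] at h1
  have hfin : ∀ X : ℝ, {c : ℤ × ℤ | (Pool.Agent.H93PR.QR.height c : ℝ) ≤ X}.Finite :=
    Pool.Agent.H93PR.QR.height_finite
  have hset : ∀ X : ℝ, UpTo X ∩ Family M R =
      {c : ℤ × ℤ | (Pool.Agent.H93PR.QR.height c : ℝ) ≤ X ∧ c ∈ Family M R} := by
    intro X
    ext c
    constructor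
    · rintro ⟨h1, h2⟩
      exact ⟨h1.2, h2⟩
    · rintro ⟨h1, h2⟩
      exact ⟨⟨hsub h2, h1⟩, h2⟩
  refine ⟨S, M, R, hmS, hM, hS, hR, fun c hc J hJ => ⟨hcur c hc J hJ, (hmin c hc J hJ).1⟩,
    ⟨hsub, d₀, X₀, hd₀, fun X hX => ?_⟩, X₀, fun X hX => ?_⟩
  · obtain ⟨h1, h2, -⟩ := h X hX
    have h3 : (UpTo X).ncard ≤ {c : ℤ × ℤ | (Pool.Agent.H93PR.QR.height c : ℝ) ≤ X}.ncard := by
      apply Set.ncard_le_ncard
      · intro c hc
        exact hc.2
      · exact hfin X
    have h4 : (UpTo X ∩ Family M R).ncard ≤ (UpTo X).ncard :=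
      Set.ncard_le_ncard Set.inter_subset_left ((hfin X).subset fun c hc => hc.2)
    rw [hset X] at h4 ⊢
    refine ⟨lt_of_lt_of_le h1 h4, ?_⟩
    refine le_trans (mul_le_mul_of_nonneg_left ?_ hd₀.le) h2
    exact_mod_cast h3
  · obtain ⟨-, -, h3⟩ := h X hX
    rw [hset X]
    refine le_trans ?_ h3
    have hsub2 : {c ∈ {c : ℤ × ℤ | (Pool.Agent.H93PR.QR.height c : ℝ) ≤ X ∧ c ∈ Family M R} |
        ¬ TwistLaw S m₀ m ε c} ⊆ {c : ℤ × ℤ | (Pool.Agent.H93PR.QR.height c : ℝ) ≤ X ∧
        c ∈ Family M R ∧ ¬ Pool.Agent.H18N.TwV.Qz S m₀ m ε c} := by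
      rintro c ⟨⟨h4, h5⟩, h6⟩
      exact ⟨h4, h5, fun h7 => h6 (law_of h7)⟩
    exact_mod_cast Set.ncard_le_ncard hsub2 ((hfin X).subset fun c hc => hc.1)

end Pool.Agent.Results.MP_6073f3_nt.RanksOfRandomTwists
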